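import Mathlib
import Pool.Agent.Lib.H65.TE12

/-!
# Infinitely many twisted-Euclidean orders with orthogonal involution

For every prime `q ≡ 3 mod 4` let `H_q = (-1, q)` over `ℚ`, with basis `1, i, j, k = i j`,
`i² = -1`, `j² = q`, let `‡` be the orthogonal involution `z ↦ k z̄ k⁻¹` and let
`O_q = ℤ + ℤ i + ℤ j + ℤ k`.  We prove that `H_q` is a division algebra, that `O_q` is a `‡`-order
and that it is `‡`-Euclidean, and that the rings with involution `(O_q, ‡)` are pairwise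
non-isomorphic.  So there are infinitely many isomorphism classes of `‡`-Euclidean `‡`-orders,
already over `K = ℚ`.
-/

namespace Pool.Agent.Results.MP_965bd6_nt.TwistedEuclidean

open scoped Quaternion NumberField
open Pool.Agent.Lib.H65.TE

/-- `σ` is an involution of the ring `R`. -/
structure IsInvolution {R : Type} [Ring R] (σ : R → R) : Prop where
  map_add : ∀ x y : R, σ (x + y) = σ x + σ y
  map_mul : ∀ x y : R, σ (x * y) = σ y * σ x
  involutive : ∀ x : R, σ (σ x) = x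

/-- `(R, σ)` is a ring with involution which has no zero divisors and is `σ`-Euclidean: there are a
well-ordered set `W` and `Φ : R → W` such that for all `a, b` with `b ≠ 0` and `a σ(b) ∈ R⁺` there is
`q ∈ R⁺` with `Φ(a - b q) < Φ(b)`, where `R⁺ = {r : σ(r) = r}`. -/
def IsTwistedEuclidean {R : Type} [Ring R] (σ : R → R) : Prop :=
  IsInvolution σ ∧ (∀ x y : R, x * y = 0 → x = 0 ∨ y = 0) ∧
    ∃ (W : Type) (_ : LinearOrder W) (_ : WellFoundedLT W) (Φ : R → W),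
      ∀ a b : R, b ≠ 0 → σ (a * σ b) = a * σ b → ∃ q : R, σ q = q ∧ Φ (a - b * q) < Φ b

/-- `(R, σ)` and `(S, τ)` are isomorphic as rings with involution: there is a ring isomorphism
`φ : R → S` with `τ ∘ φ = φ ∘ σ`. -/
def AreIsomorphic {R S : Type} [Ring R] [Ring S] (σ : R → R) (τ : S → S) : Prop :=
  ∃ φ : R ≃+* S, ∀ x : R, τ (φ x) = φ (σ x)

/-- The map `z ↦ u z̄ u⁻¹` on the quaternion algebra `(a, b)` over `K`, where `z ↦ z̄` is the
standard involution (`star` in Mathlib). -/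
def twist {K : Type} [Field K] {a b : K} (u : (ℍ[K, a, b])ˣ) (z : ℍ[K, a, b]) : ℍ[K, a, b] :=
  (u : ℍ[K, a, b]) * star z * ((u⁻¹ : (ℍ[K, a, b])ˣ) : ℍ[K, a, b])

/-- The quaternion algebra `(a, b)` over `K` is a division algebra. -/
def IsDivision {K : Type} [Field K] (a b : K) : Prop :=
  ∀ z : ℍ[K, a, b], z ≠ 0 → IsUnit z

/-- `z ↦ u z̄ u⁻¹` is an orthogonal involution: `u ∈ H^× ∖ K` and `u² ∈ K`. -/
def IsOrthogonal {K : Type} [Field K] {a b : K} (u : (ℍ[K, a, b])ˣ) : Prop :=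
  (∀ c : K, (u : ℍ[K, a, b]) ≠ algebraMap K ℍ[K, a, b] c) ∧
    ∃ c : K, (u : ℍ[K, a, b]) ^ 2 = algebraMap K ℍ[K, a, b] c

/-- The subring `O` is finitely generated as an `𝓞 K`-module. -/
def IsFinitelyGenerated {K : Type} [Field K] [NumberField K] {a b : K}
    (O : Subring ℍ[K, a, b]) : Prop :=
  ∃ M : Submodule (𝓞 K) ℍ[K, a, b], M.FG ∧ ∀ z : ℍ[K, a, b], z ∈ M ↔ z ∈ O

/-- The subring `O` spans the quaternion algebra over `K`. -/
def Spans {K : Type} [Field K] {a b : K} (O : Subring ℍ[K, a, b]) : Prop :=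
  ∀ z : ℍ[K, a, b], z ∈ Submodule.span K (O : Set ℍ[K, a, b])

/-- A quaternion division algebra `H = (a, b)` over the number field `K` (every quaternion algebra
over `K` has this form, with `a, b ≠ 0`), together with an orthogonal involution `z ↦ z^‡ = u z̄ u⁻¹`,
`u ∈ H^× ∖ K`, `u² ∈ K`, and a `‡`-order `O` of `H`: a subring of `H` which is a finitely generated
`𝓞 K`-module, spans `H` over `K` and satisfies `O^‡ ⊆ O` (equivalently `O^‡ = O`). -/
structure TwistedOrder (K : Type) [Field K] [NumberField K] where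
  a : K
  b : K
  a_ne_zero : a ≠ 0
  b_ne_zero : b ≠ 0
  isDivision : IsDivision a b
  u : (ℍ[K, a, b])ˣ
  isOrthogonal : IsOrthogonal u
  order : Subring ℍ[K, a, b]
  finitelyGenerated : IsFinitelyGenerated order
  spans : Spans order
  stable : ∀ z ∈ order, twist u z ∈ order

/-- The restriction of `‡` to the order. -/
def TwistedOrder.inv {K : Type} [Field K] [NumberField K] (T : TwistedOrder K) (z : T.order) :
    T.order :=
  ⟨twist T.u z, T.stable z z.2⟩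

/-- The ring with involution `(O, ‡)` is `‡`-Euclidean. -/
def TwistedOrder.IsEuclidean {K : Type} [Field K] [NumberField K] (T : TwistedOrder K) : Prop :=
  IsTwistedEuclidean T.inv

/-- The rings with involution `(O, ‡)` and `(O', ‡')` are isomorphic. -/
def TwistedOrder.Iso {K L : Type} [Field K] [NumberField K] [Field L] [NumberField L]
    (T : TwistedOrder K) (T' : TwistedOrder L) : Prop :=
  AreIsomorphic T.inv T'.inv

/-- the unit `k` -/
def kUnit {q : ℕ} (hq : q ≠ 0) : (ℍ[ℚ, -1, (q : ℚ)])ˣ where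
  val := ⟨0, 0, 0, 1⟩
  inv := ⟨0, 0, 0, (q : ℚ)⁻¹⟩
  val_inv := by
    have : (q : ℚ) ≠ 0 := by exact_mod_cast hq
    ext <;> simp [this]
  inv_val := by
    have : (q : ℚ) ≠ 0 := by exact_mod_cast hq
    ext <;> simp [this]

lemma twist_kUnit {q : ℕ} (hq : q ≠ 0) (z : ℍ[ℚ, -1, (q : ℚ)]) :
    twist (kUnit hq) z = ⟨z.re, z.imI, z.imJ, -z.imK⟩ := by
  have h0 : (q : ℚ) ≠ 0 := by exact_mod_cast hq
  have h1 : (((kUnit hq)⁻¹ : (ℍ[ℚ, -1, (q : ℚ)])ˣ) : ℍ[ℚ, -1, (q : ℚ)]) =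
    ⟨0, 0, 0, (q : ℚ)⁻¹⟩ := rfl
  have h2 : ((kUnit hq : (ℍ[ℚ, -1, (q : ℚ)])ˣ) : ℍ[ℚ, -1, (q : ℚ)]) = ⟨0, 0, 0, 1⟩ := rfl
  unfold twist
  rw [h1, h2]
  ext <;> simp <;> field_simp

lemma twist_emb {q : ℕ} (hq : q ≠ 0) (x y : GI) :
    twist (kUnit hq) (emb q x y) = emb q x (star y) := by
  rw [twist_kUnit]
  ext <;> simp [emb]

/-- integers in `𝓞 ℚ` -/
lemma exists_int (c : 𝓞 ℚ) : ∃ n : ℤ, ((c : 𝓞 ℚ) : ℚ) = n := by
  obtain ⟨n, hn⟩ := IsIntegrallyClosed.isIntegral_iff.mp (NumberField.RingOfIntegers.isIntegral_coe c)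
  refine ⟨n, ?_⟩
  have h1 : ((c : 𝓞 ℚ) : ℚ) = algebraMap (𝓞 ℚ) ℚ c := rfl
  rw [h1, ← hn]
  simp

/-- The `‡`-order `O_q`. -/
def T (q : ℕ) (hq : q.Prime) (h4 : q % 4 = 3) : TwistedOrder ℚ where
  a := -1
  b := q
  a_ne_zero := by norm_num
  b_ne_zero := by exact_mod_cast hq.ne_zero
  isDivision := division hq h4
  u := kUnit hq.ne_zero
  isOrthogonal := by
    refine ⟨?_, q, ?_⟩
    · intro c h
      have := congrArg QuaternionAlgebra.imK h
      simp [kUnit] at this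
    have h2 : ((kUnit hq.ne_zero : (ℍ[ℚ, -1, (q : ℚ)])ˣ) : ℍ[ℚ, -1, (q : ℚ)]) = ⟨0, 0, 0, 1⟩ := rfl
    rw [h2, pow_two]
    ext <;> simp
  order := Oq q
  finitelyGenerated := by
    refine ⟨Submodule.span (𝓞 ℚ) {emb q 1 0, emb q ⟨0, 1⟩ 0, emb q 0 1, emb q 0 ⟨0, 1⟩},
      Submodule.fg_span (Set.toFinite _), fun z => ⟨?_, ?_⟩⟩
    · intro hz
      induction hz using Submodule.span_induction with
      | mem x hx =>
        simp only [Set.mem_insert_iff, Set.mem_singleton_iff] at hx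
        rcases hx with h | h | h | h <;> exact ⟨_, _, h⟩
      | zero => exact (Oq q).zero_mem
      | add x y _ _ hx hy => exact (Oq q).add_mem hx hy
      | smul c x _ hx =>
        obtain ⟨n, hn⟩ := exists_int c
        obtain ⟨x, y, rfl⟩ := hx
        refine ⟨(n : GI) * x, (n : GI) * y, ?_⟩
        have hsm : ∀ r : ℚ, c • r = (n : ℚ) * r := by
          intro r
          rw [← hn]
          exact Algebra.smul_def c r
        ext <;> simp [emb, hsm]
    · rintro ⟨x, y, rfl⟩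
      have hmem : ∀ (n : ℤ) (z : ℍ[ℚ, -1, (q : ℚ)]),
          z ∈ Submodule.span (𝓞 ℚ) {emb q 1 0, emb q ⟨0, 1⟩ 0, emb q 0 1, emb q 0 ⟨0, 1⟩} →
          n • z ∈ Submodule.span (𝓞 ℚ) {emb q 1 0, emb q ⟨0, 1⟩ 0, emb q 0 1, emb q 0 ⟨0, 1⟩} :=
        fun n z hz => zsmul_mem hz n
      have e : emb q x y = x.re • emb q 1 0 + x.im • emb q ⟨0, 1⟩ 0 + y.re • emb q 0 1 +
          y.im • emb q 0 ⟨0, 1⟩ := by
        ext <;> simp [emb]
      rw [e]
      refine Submodule.add_mem _ (Submodule.add_mem _ (Submodule.add_mem _ ?_ ?_) ?_) ?_ <;>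
        refine hmem _ _ (Submodule.subset_span ?_) <;> simp
  spans := by
    intro z
    have e : z = z.re • emb q 1 0 + z.imI • emb q ⟨0, 1⟩ 0 + z.imJ • emb q 0 1 +
          z.imK • emb q 0 ⟨0, 1⟩ := by
        ext <;> simp [emb]
    rw [e]
    refine Submodule.add_mem _ (Submodule.add_mem _ (Submodule.add_mem _ ?_ ?_) ?_) ?_ <;>
      exact Submodule.smul_mem _ _ (Submodule.subset_span ⟨_, _, rfl⟩)
  stable := by
    rintro _ ⟨x, y, rfl⟩
    exact ⟨x, star y, twist_emb _ _ _⟩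

/-- the involution of `O_q` -/
def invO (q : ℕ) (hq : q ≠ 0) (z : Oq q) : Oq q :=
  ⟨twist (kUnit hq) z, by
    obtain ⟨_, x, y, rfl⟩ := z
    exact ⟨x, star y, twist_emb _ _ _⟩⟩

/-- the element `x + y j` of `O_q` -/
def mkO (q : ℕ) (x y : GI) : Oq q := ⟨emb q x y, x, y, rfl⟩

lemma mkO_surj {q : ℕ} (z : Oq q) : ∃ x y : GI, z = mkO q x y := by
  obtain ⟨_, x, y, rfl⟩ := z
  exact ⟨x, y, rfl⟩

lemma mkO_inj {q : ℕ} {x y z w : GI} (h : mkO q x y = mkO q z w) : x = z ∧ y = w :=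
  emb_inj (congrArg Subtype.val h)

lemma invO_mkO (q : ℕ) (hq : q ≠ 0) (x y : GI) : invO q hq (mkO q x y) = mkO q x (star y) :=
  Subtype.ext (twist_emb hq x y)

lemma mkO_mul (q : ℕ) (x y z w : GI) : mkO q x y * mkO q z w =
    mkO q (x * z + (q : GI) * y * star w) (x * w + y * star z) :=
  Subtype.ext (emb_mul q x y z w)

lemma mkO_add (q : ℕ) (x y z w : GI) : mkO q x y + mkO q z w = mkO q (x + z) (y + w) :=
  Subtype.ext (emb_add q x y z w)

lemma mkO_sub (q : ℕ) (x y z w : GI) : mkO q x y - mkO q z w = mkO q (x - z) (y - w) :=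
  Subtype.ext (emb_sub q x y z w)

lemma mkO_zero (q : ℕ) : mkO q 0 0 = 0 := Subtype.ext (emb_zero q)

lemma mkO_one (q : ℕ) : mkO q 1 0 = 1 := Subtype.ext (emb_one q)

lemma invO_euclidean {q : ℕ} (hq : q.Prime) (h4 : q % 4 = 3) :
    IsTwistedEuclidean (invO q hq.ne_zero) := by
  refine ⟨⟨?_, ?_, ?_⟩, ?_, ?_⟩
  · intro z w
    obtain ⟨x, y, rfl⟩ := mkO_surj z
    obtain ⟨x', y', rfl⟩ := mkO_surj w
    simp only [mkO_add, invO_mkO, star_add]
  · intro z w
    obtain ⟨x, y, rfl⟩ := mkO_surj z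
    obtain ⟨x', y', rfl⟩ := mkO_surj w
    simp only [mkO_mul, invO_mkO, star_add, star_mul, star_star]
    have e1 : x * x' + (q : GI) * y * star y' = x' * x + (q : GI) * star y' * y := by ring
    have e2 : star y' * star x + x' * star y = x' * star y + star y' * star x := by ring
    rw [e1, e2]
  · intro z
    obtain ⟨x, y, rfl⟩ := mkO_surj z
    simp only [invO_mkO, star_star]
  · intro z w h
    have h' : (z : ℍ[ℚ, -1, (q : ℚ)]) * (w : ℍ[ℚ, -1, (q : ℚ)]) = 0 := by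
      have := congrArg Subtype.val h
      exact this
    by_cases hz : (z : ℍ[ℚ, -1, (q : ℚ)]) = 0
    · left; exact Subtype.ext hz
    · right
      apply Subtype.ext
      exact ((division hq h4 _ hz).mul_right_eq_zero).mp h'
  · refine ⟨ℕ ×ₗ ℕ, inferInstance, inferInstance, fun z => Phi q z, ?_⟩
    intro a b hb hab
    obtain ⟨a₁, a₂, rfl⟩ := mkO_surj a
    obtain ⟨b₁, b₂, rfl⟩ := mkO_surj b
    have hb' : ¬ (b₁ = 0 ∧ b₂ = 0) := by
      rintro ⟨rfl, rfl⟩
      exact hb (mkO_zero q)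
    rw [invO_mkO, mkO_mul, invO_mkO] at hab
    have h1 := (mkO_inj hab).2
    have h2 : (a₁ * star b₂ + a₂ * star b₁).im = 0 := by
      have h3 := congrArg Zsqrtd.im h1
      rw [Zsqrtd.im_star] at h3
      omega
    obtain ⟨x, s, hxs⟩ := division_step hq h4 a₁ a₂ b₁ b₂ hb' h2
    refine ⟨mkO q x (s : GI), ?_, hxs⟩
    rw [invO_mkO, star_int]

/-- The rings with involution `(O_q, ‡)` are pairwise non-isomorphic. -/
lemma invO_iso {q q' : ℕ} (hq : q.Prime) (hq' : q'.Prime) (φ : Oq q ≃+* Oq q')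
    (h : ∀ z, invO q' hq'.ne_zero (φ z) = φ (invO q hq.ne_zero z)) : q = q' := by
  -- the image of `k`
  obtain ⟨x, y, hxy⟩ := mkO_surj (φ (mkO q 0 ⟨0, 1⟩))
  have hneg : ∀ x y : GI, mkO q x (-y) = - mkO q (-x) y := by
    intro x y
    apply eq_neg_of_add_eq_zero_left
    rw [mkO_add, neg_add_cancel, add_neg_cancel, mkO_zero]
  have hk := h (mkO q 0 ⟨0, 1⟩)
  rw [invO_mkO] at hk
  have hst : star (⟨0, 1⟩ : GI) = -⟨0, 1⟩ := by
    apply Zsqrtd.ext <;> simp
  rw [hst, hneg, neg_zero, map_neg, hxy, invO_mkO] at hk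
  have hk2 : mkO q' (x + x) (star y + y) = mkO q' 0 0 := by
    rw [← mkO_add, hk, mkO_zero, neg_add_cancel]
  obtain ⟨hx, hy⟩ := mkO_inj hk2
  have hx0 : x = 0 := by
    apply Zsqrtd.ext
    · have := congrArg Zsqrtd.re hx
      simp at this ⊢
      omega
    · have := congrArg Zsqrtd.im hx
      simp at this ⊢
      omega
  have hyre : y.re = 0 := by
    have := congrArg Zsqrtd.re hy
    simp at this
    omega
  -- squares
  have hsq : φ (mkO q 0 ⟨0, 1⟩ * mkO q 0 ⟨0, 1⟩) = mkO q' x y * mkO q' x y := by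
    rw [map_mul, hxy]
  have h1 : mkO q 0 ⟨0, 1⟩ * mkO q 0 ⟨0, 1⟩ = ((q : ℕ) : Oq q) := by
    rw [mkO_mul]
    apply Subtype.ext
    have : (((q : ℕ) : Oq q) : ℍ[ℚ, -1, (q : ℚ)]) = ((q : ℕ) : ℍ[ℚ, -1, (q : ℚ)]) := by
      push_cast; rfl
    rw [this]
    ext <;> simp [mkO, emb]
  rw [h1, map_natCast] at hsq
  have h2 : (((q : ℕ) : Oq q') : ℍ[ℚ, -1, (q' : ℚ)]) = ((q : ℕ) : ℍ[ℚ, -1, (q' : ℚ)]) := by
    push_cast; rfl
  rw [hx0, mkO_mul] at hsq
  have h3 := congrArg (fun z : Oq q' => (z : ℍ[ℚ, -1, (q' : ℚ)]).re) hsq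
  simp only [h2] at h3
  simp [mkO, emb, hyre] at h3
  have h4 : (q : ℤ) = q' * y.im * y.im := by exact_mod_cast h3
  have h5 : q' ∣ q := by
    have : (q' : ℤ) ∣ q := ⟨y.im * y.im, by rw [h4]; ring⟩
    exact_mod_cast this
  exact ((Nat.prime_dvd_prime_iff_eq hq' hq).mp h5).symm

lemma T_euclidean {q : ℕ} (hq : q.Prime) (h4 : q % 4 = 3) :
    (T q hq h4).IsEuclidean :=
  invO_euclidean hq h4

lemma T_iso {q q' : ℕ} (hq : q.Prime) (h4 : q % 4 = 3) (hq' : q'.Prime) (h4' : q' % 4 = 3)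
    (h : (T q hq h4).Iso (T q' hq' h4')) : q = q' := by
  obtain ⟨φ, hφ⟩ := h
  exact invO_iso hq hq' φ hφ

/-- **Theorem.** There are infinitely many isomorphism classes of `‡`-Euclidean `‡`-orders in
quaternion division algebras over number fields, already over `ℚ`. -/
theorem result : ∃ F : ℕ → TwistedOrder ℚ, (∀ n : ℕ, (F n).IsEuclidean) ∧
    ∀ m n : ℕ, m ≠ n → ¬ (F m).Iso (F n) := by
  have hinf : Set.Infinite {q : ℕ | q.Prime ∧ q % 4 = 3} := by
    rw [Set.infinite_iff_exists_gt]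
    intro n
    obtain ⟨p, hp1, hp2, hp3⟩ := Nat.forall_exists_prime_gt_and_modEq n (q := 4) (a := 3)
      (by norm_num) (by norm_num)
    refine ⟨p, ⟨hp2, ?_⟩, hp1⟩
    have : p % 4 = 3 % 4 := hp3
    omega
  have f := hinf.natEmbedding
  refine ⟨fun n => T (f n) (f n).2.1 (f n).2.2, fun n => T_euclidean _ _, ?_⟩
  intro m n hmn hiso
  have h1 := T_iso _ _ _ _ hiso
  exact hmn (f.injective (Subtype.ext h1))

end Pool.Agent.Results.MP_965bd6_nt.TwistedEuclidean
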